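import Pool.Agent.Helper65.CB.Dom

/-!
# Potential density over a finite extension
-/

set_option autoImplicit false

namespace Pool.Agent.Helper16.QI

open AlgebraicGeometry CategoryTheory Pool.Agent.Helper15

universe u

/-- potential density of `X` over `K` from a scheme over a finite extension `M` -/
theorem potentiallyDense_of_ext' {K M : Type u} [Field K] [Field M] [Algebra K M]
    [FiniteDimensional K M] {X Y W : Scheme.{u}} (s : X ⟶ Spec (CommRingCat.of K))
    (t : Y ⟶ Spec (CommRingCat.of M)) (f : W ⟶ X) (j : W ⟶ Y) (hf : IsDominant f)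
    (hj : IsOpenImmersion j)
    (h : f ≫ s = j ≫ t ≫ Spec.map (CommRingCat.ofHom (algebraMap K M)))
    (hY : PotentiallyDense M Y t) : PotentiallyDense K X s := by
  obtain ⟨L, iL, aL, hfin, hdense⟩ := hY
  let aKL : Algebra K L := ((algebraMap M L).comp (algebraMap K M)).toAlgebra
  have : IsScalarTower K M L := IsScalarTower.of_algebraMap_eq (fun _ => rfl)
  refine ⟨L, iL, aKL, FiniteDimensional.trans K M L, ?_⟩
  have hD : Dense (ratPts M L W (j ≫ t)) := dense_ratPts_of_openImmersion M L W Y j t hdense
  have hmap : Spec.map (CommRingCat.ofHom (algebraMap K L)) =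
      Spec.map (CommRingCat.ofHom (algebraMap M L)) ≫
        Spec.map (CommRingCat.ofHom (algebraMap K M)) := by
    rw [← Spec.map_comp, ← CommRingCat.ofHom_comp]
  have hsub : f '' (ratPts M L W (j ≫ t)) ⊆ ratPts K L X s := by
    rintro _ ⟨z, ⟨p, hp, ⟨y, hy⟩⟩, rfl⟩
    refine ⟨p ≫ f, ?_, y, ?_⟩
    · rw [Category.assoc, h, hmap, ← hp]
      simp only [Category.assoc]
    · rw [Scheme.Hom.comp_apply, hy]
  have hr : DenseRange f := hf.denseRange
  exact (hr.dense_image f.continuous hD).mono hsub

/-- **G1.** potential density of `X` over `K` from a scheme over a finite extension `M` -/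
theorem potentiallyDense_of_ext {K M : Type} [Field K] [Field M] [Algebra K M]
    [FiniteDimensional K M] {X Y W : Scheme.{0}} (s : X ⟶ Spec (CommRingCat.of K))
    (t : Y ⟶ Spec (CommRingCat.of M)) (f : W ⟶ X) (j : W ⟶ Y) (hf : IsDominant f)
    (hj : IsOpenImmersion j) (_hW : Nonempty W)
    (h : f ≫ s = j ≫ t ≫ Spec.map (CommRingCat.ofHom (algebraMap K M)))
    (hY : PotentiallyDense M Y t) : PotentiallyDense K X s :=
  potentiallyDense_of_ext' s t f j hf hj h hY

end Pool.Agent.Helper16.QI
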